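import Pool.Agent.Helper20.W.RedB

/-!
# Reduction of the block form to the visible configuration
-/

set_option autoImplicit false

namespace Pool.Agent.Helper92.W

open Finset Pool.Agent.Helper69.RK Pool.Agent.Helper61.GL Pool.Agent.Helper46.WF

section core

variable {Ω φ : Type} [Fintype Ω]

theorem red_cfg_mono {n s : ℕ} {e e' c : ℝ} {μ : Ω → ℝ} {z : Ω → ℝ} {X Y : Ω → Fin 2 → ℝ}
    (h : Cfg n s e c μ z X Y) (he : e ≤ e') : Cfg n s e' c μ z X Y := by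
  have hn : (0 : ℝ) ≤ n := Nat.cast_nonneg n
  have hen : e * n ≤ e' * n := mul_le_mul_of_nonneg_right he hn
  refine ⟨h.nn, h.ms, h.zb, h.xb, h.yb, h.ang, ?_, ?_, ?_, ?_, ?_, ?_⟩
  · linarith [h.i1]
  · linarith [h.i2]
  · linarith [h.i3]
  · linarith [h.tx]
  · linarith [h.ty]
  · refine le_trans (Pw_mono μ h.nn ?_) (le_trans h.un he)
    rintro ω _ ⟨a, b, h1, h2, h3⟩
    exact ⟨a, b, h1, h2, by linarith⟩

theorem red_fl_bd {n : ℕ} {x : ℝ} (hx : |x| ≤ 1) : -(2 : ℤ) ^ n ≤ fl n x ∧ fl n x ≤ (2 : ℤ) ^ n := by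
  have h2 : (0 : ℝ) < 2 ^ n := by positivity
  rw [abs_le] at hx
  unfold fl
  constructor
  · rw [Int.le_floor]
    push_cast
    nlinarith
  · have h3 : ⌊(2 : ℝ) ^ n * x⌋ ≤ ⌊(2 : ℝ) ^ n⌋ := Int.floor_le_floor (by nlinarith)
    have h4 : ⌊(2 : ℝ) ^ n⌋ = (2 : ℤ) ^ n := by
      have : ((2 : ℝ) ^ n) = (((2 : ℤ) ^ n : ℤ) : ℝ) := by push_cast; rfl
      rw [this, Int.floor_intCast]
    rwa [h4] at h3

theorem red_logb_n {n : ℕ} {x : ℝ} (h0 : 0 < x) (h : x ≤ 2 ^ (n + 2)) : Real.logb 2 x ≤ n + 2 := by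
  have h1 := Real.logb_le_logb_of_le (b := 2) (by norm_num) h0 h
  rw [logb_two_pow] at h1
  push_cast at h1
  exact h1

/-- entropy of the digits of a variable in `[-1, 1]` -/
theorem red_Hh_fl (w : Ω → ℝ) (hw : ∀ ω, 0 ≤ w ω) (hm : ∑ ω, w ω = 1) (n : ℕ) (T : Ω → ℝ)
    (hT : ∀ ω, |T ω| ≤ 1) : Hh w (fun ω => fl n (T ω)) ≤ n + 2 := by
  have h1 := ch_int w hw (fun ω => fl n (T ω)) (fun _ => ()) (2 ^ (n + 1)) (by positivity) (by
    intro ω ω' _ _ _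
    obtain ⟨a1, a2⟩ := red_fl_bd (n := n) (hT ω)
    obtain ⟨a3, a4⟩ := red_fl_bd (n := n) (hT ω')
    have b1 : -(2 : ℝ) ^ n ≤ (fl n (T ω) : ℝ) := by exact_mod_cast a1
    have b2 : (fl n (T ω) : ℝ) ≤ (2 : ℝ) ^ n := by exact_mod_cast a2
    have b3 : -(2 : ℝ) ^ n ≤ (fl n (T ω') : ℝ) := by exact_mod_cast a3
    have b4 : (fl n (T ω') : ℝ) ≤ (2 : ℝ) ^ n := by exact_mod_cast a4
    rw [pow_succ, abs_le]
    constructor <;> linarith)
  have h2 : mass w = 1 := hm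
  rw [h2, mul_one] at h1
  refine le_trans h1 (red_logb_n (by positivity) ?_)
  have : (1 : ℝ) ≤ 2 ^ (n + 1) := one_le_pow₀ (by norm_num)
  rw [pow_succ (2 : ℝ) (n + 1)]
  linarith

/-- a variable with nearly full entropy is rarely small -/
theorem red_small (μ : Ω → ℝ) (hμ : ∀ ω, 0 ≤ μ ω) (hm : mass μ = 1) (n : ℕ) (T : Ω → ℝ)
    (hT : ∀ ω, |T ω| ≤ 1) {η : ℝ} (h : (1 - η) * n ≤ Hh μ (fun ω => fl n (T ω))) :
    Pw μ (fun ω => |T ω| < (2 : ℝ) ^ (-(n : ℝ))) * n ≤ 4 + η * n := by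
  classical
  have hm' : ∑ ω, μ ω = 1 := hm
  have hn : (0 : ℝ) ≤ n := Nat.cast_nonneg n
  have hp0 := Pw_nonneg μ hμ (fun ω => |T ω| < (2 : ℝ) ^ (-(n : ℝ)))
  have h1 := Hh_exc μ hμ hm' (fun ω => fl n (T ω)) (fun ω => |T ω| < (2 : ℝ) ^ (-(n : ℝ)))
    ({-1, 0} : Finset ℤ) (Icc (-(2 : ℤ) ^ n) ((2 : ℤ) ^ n)) (N1 := 2) (N2 := 2 ^ (n + 2))
    (δ := 1 - Pw μ (fun ω => |T ω| < (2 : ℝ) ^ (-(n : ℝ)))) (by norm_num)
    (one_le_pow₀ (by norm_num)) (by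
      intro ω _ hlt
      rw [Real.rpow_neg (by norm_num), Real.rpow_natCast] at hlt
      have h2 : (0 : ℝ) < 2 ^ n := by positivity
      have h3 : |(2 : ℝ) ^ n * T ω| < 1 := by
        rw [abs_mul, abs_of_pos h2]
        calc (2 : ℝ) ^ n * |T ω| < 2 ^ n * (2 ^ n)⁻¹ := mul_lt_mul_of_pos_left hlt h2
          _ = 1 := mul_inv_cancel₀ h2.ne'
      rw [abs_lt] at h3
      have h4 : -1 ≤ fl n (T ω) := by
        unfold fl; rw [Int.le_floor]; push_cast; linarith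
      have h5 : fl n (T ω) < 1 := by
        unfold fl; rw [Int.floor_lt]; push_cast; linarith
      rw [mem_insert, mem_singleton]
      omega) (by
      have : ({-1, 0} : Finset ℤ).card = 2 := by decide
      rw [this]; norm_num) (by
      intro ω _
      rw [mem_Icc]
      exact red_fl_bd (hT ω)) (by
      rw [Int.card_Icc]
      have h2 : ((2 : ℤ) ^ n + 1 - -(2 : ℤ) ^ n).toNat = 2 ^ (n + 1) + 1 := by
        have : (2 : ℤ) ^ n + 1 - -(2 : ℤ) ^ n = ((2 ^ (n + 1) + 1 : ℕ) : ℤ) := by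
          push_cast; ring
        rw [this, Int.toNat_natCast]
      rw [h2]
      push_cast
      have : (1 : ℝ) ≤ 2 ^ (n + 1) := one_le_pow₀ (by norm_num)
      rw [pow_succ (2 : ℝ) (n + 1)]
      linarith) (by
      rw [Pw_compl μ hm'])
  have h2 : Real.logb 2 2 = 1 := Real.logb_self_eq_one (by norm_num)
  rw [h2, logb_two_pow] at h1
  push_cast at h1
  nlinarith

theorem red_floor_pow {a : ℕ} {u v : ℝ} (h : ⌊(2 : ℝ) ^ a * u⌋ = ⌊(2 : ℝ) ^ a * v⌋) : ⌊u⌋ = ⌊v⌋ := by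
  have h2 : (0 : ℝ) < 2 ^ a := by positivity
  have key : ∀ x y : ℝ, ⌊(2 : ℝ) ^ a * x⌋ = ⌊(2 : ℝ) ^ a * y⌋ → ⌊x⌋ ≤ ⌊y⌋ := by
    intro x y hxy
    rw [Int.le_floor]
    have h3 : ((2 : ℤ) ^ a * ⌊x⌋ : ℤ) ≤ ⌊(2 : ℝ) ^ a * x⌋ := by
      rw [Int.le_floor]
      push_cast
      exact mul_le_mul_of_nonneg_left (Int.floor_le x) h2.le
    rw [hxy] at h3
    rw [Int.le_floor] at h3
    push_cast at h3
    exact le_of_mul_le_mul_left h3 h2
  exact le_antisymm (key u v h) (key v u h.symm)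

theorem red_fl_scale {n a : ℕ} {u v : ℝ} (h : fl n ((2 : ℝ) ^ a * u) = fl n ((2 : ℝ) ^ a * v)) :
    fl n u = fl n v := by
  unfold fl at h ⊢
  apply red_floor_pow (a := a)
  rw [← mul_assoc, mul_comm ((2 : ℝ) ^ a) ((2 : ℝ) ^ n), mul_assoc, ← mul_assoc ((2 : ℝ) ^ a),
    mul_comm ((2 : ℝ) ^ a) ((2 : ℝ) ^ n), mul_assoc]
  exact h

/-- mean of the probabilities under the conditional laws -/
theorem red_Pw_cw {γ : Type} (μ : Ω → ℝ) (hμ : ∀ ω, 0 ≤ μ ω) (G : Ω → γ) (B : Ω → Prop) :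
    ∑ ω, μ ω * Pw (cw μ G ω) B = Pw μ B := by
  classical
  have h1 : ∀ w : Ω → ℝ, Pw w B = ∑ ω, w ω * (if B ω then 1 else 0) := by
    intro w
    unfold Pw
    refine sum_congr rfl fun ω _ => ?_
    by_cases h : B ω
    · simp only [if_pos h, mul_one]
    · simp only [if_neg h, mul_zero]
  rw [h1 μ, ← cw_expect μ hμ G (fun ω => if B ω then 1 else 0)]
  refine sum_congr rfl fun ω _ => ?_
  rw [h1]

/-- mean loss for a variable which is nearly independent of `(X, Y)` over the base -/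
theorem red_mean12 {α α' β γ φ' : Type} (μ : Ω → ℝ) (hμ : ∀ ω, 0 ≤ μ ω) (f : Ω → α) (X : Ω → α')
    (Y : Ω → β) (F : Ω → φ') (G : Ω → γ) {u : ℝ}
    (hG : ∀ ω ω', X ω = X ω' → Y ω = Y ω' → F ω = F ω' → G ω = G ω')
    (hG' : ∀ ω ω', G ω = G ω' → F ω = F ω')
    (h : CH μ f F ≤ CH μ f (fun ω => (X ω, Y ω, F ω)) + u) :
    ∑ ω, μ ω * (Hh (cw μ G ω) f - CH (cw μ G ω) f (fun ω' => (X ω', Y ω'))) ≤ u := by
  have e1 : ∑ ω, μ ω * (Hh (cw μ G ω) f - CH (cw μ G ω) f (fun ω' => (X ω', Y ω'))) =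
      CH μ f G - CH μ f (fun ω => ((X ω, Y ω), G ω)) := by
    rw [red_disint μ hμ f (fun ω => (X ω, Y ω)) G, CH_disint μ hμ, ← sum_sub_distrib]
    refine sum_congr rfl fun ω _ => ?_
    ring
  have e2 : CH μ f G ≤ CH μ f F := ch_cond μ hμ f F G (fun ω ω' _ _ h => hG' _ _ h)
  have e3 : CH μ f (fun ω => (X ω, Y ω, F ω)) ≤ CH μ f (fun ω => ((X ω, Y ω), G ω)) := by
    apply ch_cond μ hμ
    intro ω ω' _ _ hh
    simp only [Prod.mk.injEq] at hh ⊢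
    exact ⟨⟨hh.1, hh.2.1⟩, hG _ _ hh.1 hh.2.1 hh.2.2⟩
  rw [e1]; linarith

theorem red_core {n : ℕ} {η c κ ε e : ℝ} (μ : Ω → ℝ) (F : Ω → φ) (z : Ω → ℝ) (X Y : Ω → Fin 2 → ℝ)
    (hB : Blk n η c μ F z X Y) (hε : 0 < ε) (he : 0 < e) (he1 : e ≤ 1) (hκ0 : 0 < κ)
    (hκ : κ < 1) (hη0 : 0 ≤ η) (hη : η ≤ ε * e / 100) (hn : 1 ≤ n)
    (h1 : 3 * Real.logb 2 ((n : ℝ) + 2) ≤ ε * e / 1000 * n) (h2 : 8 ≤ ε * e / 1000 * n)
    (h3 : ((n : ℝ) + 1) ^ 2 * (2 : ℝ) ^ (-((e - η) * n)) ≤ ε * e / 100)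
    (hbad : ε < Pw μ (fun ω => (2 : ℝ) ^ (-(κ * n)) < |om (X ω) (Y ω)|)) :
    ∃ (s : ℕ) (w : Ω → ℝ) (X' Y' : Ω → Fin 2 → ℝ), (s : ℝ) ≤ κ * n ∧ Cfg n s e c w z X' Y' := by
  classical
  obtain ⟨hμ, hms, hzb, hxb, hyb, hi1, hi2, hi3, htx, hty, hun⟩ := hB
  have hm' : ∑ ω, μ ω = 1 := hms
  have hnp : (0 : ℝ) < n := by exact_mod_cast (by omega : 0 < n)
  have hen : 0 < e * n := mul_pos he hnp
  -- labels
  let L : Ω → ℤ × ℤ × ℤ := fun ω => redL n κ (X ω) (Y ω)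
  let K : Ω → ℤ := fun ω => redK n κ (X ω) (Y ω)
  let G : Ω → ℤ × (ℤ × ℤ × ℤ) × φ := fun ω => (K ω, L ω, F ω)
  have hL : CH μ L F ≤ 3 * Real.logb 2 ((n : ℝ) + 2) :=
    red_label_ent μ hμ hms F L n (fun ω => redL_range hκ0.le hκ.le)
  have hK2 : CH μ K (fun ω => (Y ω, L ω, F ω)) ≤ 5 := by
    have k1 := ch_int μ hμ K (fun ω => (Y ω, L ω, F ω)) 24 (by norm_num) (by
      intro ω ω' _ _ hh
      have hY : Y ω = Y ω' := (Prod.mk.inj hh).1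
      have hLL : L ω = L ω' := (Prod.mk.inj (Prod.mk.inj hh).2).1
      by_cases hE : redE n κ (X ω) (Y ω)
      · obtain ⟨g1, _, _, _, g5⟩ := redL_E hE hLL.symm
        have n1 : |((K ω : ℤ) : ℝ) - redS (X ω) (Y ω) * Y ω 1 / Y ω 0| ≤ 12 :=
          redK_near hE (hxb ω) (hyb ω)
        have n2 : |((K ω' : ℤ) : ℝ) - redS (X ω') (Y ω') * Y ω' 1 / Y ω' 0| ≤ 12 :=
          redK_near g1 (hxb ω') (hyb ω')
        rw [g5, ← hY] at n2
        rw [abs_le] at n1 n2 ⊢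
        constructor <;> linarith
      · have hE' : ¬ redE n κ (X ω') (Y ω') := fun hc => hE (redL_E hc hLL).1
        have q1 : K ω = 0 := by show redK n κ (X ω) (Y ω) = 0; unfold redK; rw [if_neg hE]
        have q2 : K ω' = 0 := by show redK n κ (X ω') (Y ω') = 0; unfold redK; rw [if_neg hE']
        rw [q1, q2]; norm_num)
    rw [hms, mul_one] at k1
    refine le_trans k1 ?_
    have k2 : Real.logb 2 (24 + 1) ≤ Real.logb 2 ((2 : ℝ) ^ 5) :=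
      Real.logb_le_logb_of_le (by norm_num) (by norm_num) (by norm_num)
    rw [logb_two_pow] at k2
    exact_mod_cast k2
  have hK1 : ∀ ω ω', X ω = X ω' → L ω = L ω' → K ω = K ω' := fun ω ω' a b => redK_det a b
  obtain ⟨hI3, hLK⟩ := red_info μ hμ X Y F L K hK1 hK2 hL hi3
  have hG : ∀ ω ω', X ω = X ω' → Y ω = Y ω' → F ω = F ω' → G ω = G ω' := by
    intro ω ω' a b d
    show (redK n κ (X ω) (Y ω), redL n κ (X ω) (Y ω), F ω) =
      (redK n κ (X ω') (Y ω'), redL n κ (X ω') (Y ω'), F ω')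
    rw [a, b, d]
  have hG' : ∀ ω ω', G ω = G ω' → F ω = F ω' := fun ω ω' hh =>
    (Prod.mk.inj (Prod.mk.inj hh).2).2
  -- the local losses
  let D1 : Ω → ℝ := fun ω => Hh (cw μ G ω) (fun ω' => fl n (z ω')) -
    CH (cw μ G ω) (fun ω' => fl n (z ω')) (fun ω' => (X ω', Y ω'))
  let D2 : Ω → ℝ := fun ω => Hh (cw μ G ω) (fun ω' => fl n (z ω' + om (X ω') (Y ω'))) -
    CH (cw μ G ω) (fun ω' => fl n (z ω' + om (X ω') (Y ω'))) (fun ω' => (X ω', Y ω'))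
  let D3 : Ω → ℝ := fun ω => Hh (cw μ G ω) X - CH (cw μ G ω) X Y
  let D4 : Ω → ℝ := fun ω => (n : ℝ) + 2 - Hh (cw μ G ω) (fun ω' => fl n (X ω' 0))
  let D5 : Ω → ℝ := fun ω => (n : ℝ) + 2 - Hh (cw μ G ω) (fun ω' => fl n (Y ω' 0))
  let B : Ω → Prop := fun ω => ∃ a b : ℕ, a ≤ b ∧ b ≤ n ∧ (1 - c) * ((b : ℝ) - a) + e * n <
      srp μ (fun ω' => fl b (z ω')) (fun ω' => (fl a (z ω'), G ω')) ω
  let D6 : Ω → ℝ := fun ω => Pw (cw μ G ω) B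
  have hnn : ∀ {α β : Type} (f : Ω → α) (g : Ω → β) (ω : Ω),
      0 ≤ Hh (cw μ G ω) f - CH (cw μ G ω) f g := by
    intro α β f g ω
    have := ch_cond (cw μ G ω) (cw_nonneg μ G hμ ω) f (fun _ => ()) g (fun _ _ _ _ _ => rfl)
    unfold Hh; linarith
  have m1 : ∑ ω, μ ω * D1 ω ≤ η * n := red_mean12 μ hμ _ X Y F G hG hG' hi1
  have m2 : ∑ ω, μ ω * D2 ω ≤ η * n := red_mean12 μ hμ _ X Y F G hG hG' hi2
  have m3 : ∑ ω, μ ω * D3 ω ≤ η * n + 3 * Real.logb 2 ((n : ℝ) + 2) := by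
    have e1 : ∑ ω, μ ω * D3 ω = CH μ X G - CH μ X (fun ω => (Y ω, G ω)) := by
      rw [red_disint μ hμ X Y G, CH_disint μ hμ, ← sum_sub_distrib]
      refine sum_congr rfl fun ω _ => ?_
      show μ ω * (_ - _) = _
      ring
    rw [e1]
    have e2 : CH μ X G ≤ CH μ X (fun ω => (Y ω, G ω)) + (η * n + 3 * Real.logb 2 ((n : ℝ) + 2)) := hI3
    linarith
  have m45 : ∀ T : Ω → ℝ, (1 - η) * n ≤ CH μ (fun ω => fl n (T ω)) F →
      ∑ ω, μ ω * ((n : ℝ) + 2 - Hh (cw μ G ω) (fun ω' => fl n (T ω'))) ≤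
        2 * (η * n) + 2 * (3 * Real.logb 2 ((n : ℝ) + 2)) + 7 := by
    intro T hT
    have e1 : ∑ ω, μ ω * ((n : ℝ) + 2 - Hh (cw μ G ω) (fun ω' => fl n (T ω'))) =
        ((n : ℝ) + 2) - CH μ (fun ω => fl n (T ω)) G := by
      rw [CH_disint μ hμ]
      have : ∀ ω, μ ω * ((n : ℝ) + 2 - Hh (cw μ G ω) (fun ω' => fl n (T ω'))) =
          μ ω * ((n : ℝ) + 2) - μ ω * Hh (cw μ G ω) (fun ω' => fl n (T ω')) := by
        intro ω; ring
      rw [sum_congr rfl (fun ω _ => this ω), sum_sub_distrib, ← sum_mul, hm', one_mul]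
    have e2 := red_lose μ hμ (fun ω => fl n (T ω)) F L K hLK
    have e3 : CH μ (fun ω => fl n (T ω)) G = CH μ (fun ω => fl n (T ω)) (fun ω => (K ω, L ω, F ω)) := rfl
    rw [e1, e3]; linarith
  have m4 := m45 (fun ω => X ω 0) htx
  have m5 := m45 (fun ω => Y ω 0) hty
  have m6 : ∑ ω, μ ω * D6 ω ≤ ε * e / 50 := by
    have e1 : ∑ ω, μ ω * D6 ω = Pw μ B := red_Pw_cw μ hμ G B
    have e2 := red_un μ hμ hms z F G hG' n c η e hun
    rw [e1]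
    have e3 : Pw μ B ≤ η + ((n : ℝ) + 1) ^ 2 * (2 : ℝ) ^ (-((e - η) * n)) := e2
    linarith
  -- probabilities
  have hηn : η * n ≤ ε * e / 100 * n := mul_le_mul_of_nonneg_right hη hnp.le
  have p1 : Pw μ (fun ω => e * n < D1 ω) ≤ ε / 16 := by
    refine le_trans (Pw_markov μ hμ D1 (fun ω _ => hnn _ _ ω) hen m1) ?_
    rw [div_le_iff₀ hen]; linarith [mul_pos (mul_pos hε he) hnp]
  have p2 : Pw μ (fun ω => e * n < D2 ω) ≤ ε / 16 := by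
    refine le_trans (Pw_markov μ hμ D2 (fun ω _ => hnn _ _ ω) hen m2) ?_
    rw [div_le_iff₀ hen]; linarith [mul_pos (mul_pos hε he) hnp]
  have p3 : Pw μ (fun ω => e * n < D3 ω) ≤ ε / 16 := by
    refine le_trans (Pw_markov μ hμ D3 (fun ω _ => hnn _ _ ω) hen m3) ?_
    rw [div_le_iff₀ hen]; linarith [mul_pos (mul_pos hε he) hnp]
  have p4 : Pw μ (fun ω => e * n < D4 ω) ≤ ε / 16 := by
    refine le_trans (Pw_markov μ hμ D4 (fun ω hω => ?_) hen m4) ?_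
    · have := red_Hh_fl (cw μ G ω) (cw_nonneg μ G hμ ω) (cw_sum μ G hμ ω hω) n (fun ω => X ω 0)
        (fun ω => hxb ω 0)
      show 0 ≤ (n : ℝ) + 2 - _
      linarith
    · rw [div_le_iff₀ hen]; linarith [mul_pos (mul_pos hε he) hnp]
  have p5 : Pw μ (fun ω => e * n < D5 ω) ≤ ε / 16 := by
    refine le_trans (Pw_markov μ hμ D5 (fun ω hω => ?_) hen m5) ?_
    · have := red_Hh_fl (cw μ G ω) (cw_nonneg μ G hμ ω) (cw_sum μ G hμ ω hω) n (fun ω => Y ω 0)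
        (fun ω => hyb ω 0)
      show 0 ≤ (n : ℝ) + 2 - _
      linarith
    · rw [div_le_iff₀ hen]; linarith [mul_pos (mul_pos hε he) hnp]
  have p6 : Pw μ (fun ω => e < D6 ω) ≤ ε / 16 := by
    refine le_trans (Pw_markov μ hμ D6 (fun ω _ => Pw_nonneg _ (cw_nonneg μ G hμ ω) _) he m6) ?_
    rw [div_le_iff₀ he]; linarith [mul_pos hε he]
  have hsm : ∀ T : Ω → ℝ, (∀ ω, |T ω| ≤ 1) → (1 - η) * n ≤ CH μ (fun ω => fl n (T ω)) F →
      Pw μ (fun ω => |T ω| < (2 : ℝ) ^ (-(n : ℝ))) ≤ ε / 8 := by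
    intro T hT hTF
    have e1 : CH μ (fun ω => fl n (T ω)) F ≤ Hh μ (fun ω => fl n (T ω)) :=
      ch_cond μ hμ _ (fun _ => ()) F (fun _ _ _ _ _ => rfl)
    have e2 := red_small μ hμ hms n T hT (le_trans hTF e1)
    have e3 : Pw μ (fun ω => |T ω| < (2 : ℝ) ^ (-(n : ℝ))) * n ≤ ε / 8 * n := by
      have : ε * e * n ≤ ε * 1 * n :=
        mul_le_mul_of_nonneg_right (mul_le_mul_of_nonneg_left he1 hε.le) hnp.le
      nlinarith
    exact le_of_mul_le_mul_right e3 hnp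
  have p7 := hsm (fun ω => X ω 0) (fun ω => hxb ω 0) htx
  have p8 := hsm (fun ω => Y ω 0) (fun ω => hyb ω 0) hty
  -- the good point
  let Gd : Ω → Prop := fun ω => redE n κ (X ω) (Y ω) ∧ D1 ω ≤ e * n ∧ D2 ω ≤ e * n ∧ D3 ω ≤ e * n ∧
    D4 ω ≤ e * n ∧ D5 ω ≤ e * n ∧ D6 ω ≤ e
  have hgd : 0 < Pw μ Gd := by
    have u1 : Pw μ (fun ω => (2 : ℝ) ^ (-(κ * n)) < |om (X ω) (Y ω)|) ≤
        Pw μ (fun ω => Gd ω ∨ (|X ω 0| < (2 : ℝ) ^ (-(n : ℝ)) ∨ (|Y ω 0| < (2 : ℝ) ^ (-(n : ℝ)) ∨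
          (e * n < D1 ω ∨ (e * n < D2 ω ∨ (e * n < D3 ω ∨ (e * n < D4 ω ∨ (e * n < D5 ω ∨
            e < D6 ω)))))))) := by
      apply Pw_mono μ hμ
      intro ω _ hω
      by_contra hc
      push Not at hc
      obtain ⟨c1, c2, c3, c4, c5, c6, c7, c8, c9⟩ := hc
      exact c1 ⟨⟨hω, c2, c3⟩, c4, c5, c6, c7, c8, c9⟩
    have o1 := Pw_or μ hμ Gd (fun ω => (|X ω 0| < (2 : ℝ) ^ (-(n : ℝ)) ∨ (|Y ω 0| < (2 : ℝ) ^ (-(n : ℝ)) ∨
          (e * n < D1 ω ∨ (e * n < D2 ω ∨ (e * n < D3 ω ∨ (e * n < D4 ω ∨ (e * n < D5 ω ∨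
            e < D6 ω))))))))
    have o2 := Pw_or μ hμ (fun ω => |X ω 0| < (2 : ℝ) ^ (-(n : ℝ))) (fun ω =>
      (|Y ω 0| < (2 : ℝ) ^ (-(n : ℝ)) ∨ (e * n < D1 ω ∨ (e * n < D2 ω ∨ (e * n < D3 ω ∨
        (e * n < D4 ω ∨ (e * n < D5 ω ∨ e < D6 ω)))))))
    have o3 := Pw_or μ hμ (fun ω => |Y ω 0| < (2 : ℝ) ^ (-(n : ℝ))) (fun ω =>
      (e * n < D1 ω ∨ (e * n < D2 ω ∨ (e * n < D3 ω ∨ (e * n < D4 ω ∨ (e * n < D5 ω ∨ e < D6 ω))))))
    have o4 := Pw_or μ hμ (fun ω => e * n < D1 ω) (fun ω =>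
      (e * n < D2 ω ∨ (e * n < D3 ω ∨ (e * n < D4 ω ∨ (e * n < D5 ω ∨ e < D6 ω)))))
    have o5 := Pw_or μ hμ (fun ω => e * n < D2 ω) (fun ω =>
      (e * n < D3 ω ∨ (e * n < D4 ω ∨ (e * n < D5 ω ∨ e < D6 ω))))
    have o6 := Pw_or μ hμ (fun ω => e * n < D3 ω) (fun ω =>
      (e * n < D4 ω ∨ (e * n < D5 ω ∨ e < D6 ω)))
    have o7 := Pw_or μ hμ (fun ω => e * n < D4 ω) (fun ω => (e * n < D5 ω ∨ e < D6 ω))
    have o8 := Pw_or μ hμ (fun ω => e * n < D5 ω) (fun ω => e < D6 ω)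
    linarith
  obtain ⟨ω0, hω0, hE0, q1, q2, q3, q4, q5, q6⟩ := Pw_exists μ hgd
  -- the configuration
  have hw := cw_nonneg μ G hμ ω0
  have hws := cw_sum μ G hμ ω0 hω0
  have hsup : ∀ ω, cw μ G ω0 ω ≠ 0 → μ ω ≠ 0 ∧ G ω = G ω0 ∧ K ω = K ω0 ∧ L ω = L ω0 ∧
      redE n κ (X ω) (Y ω) ∧ redLg (X ω 0) = redLg (X ω0 0) ∧ redLg (Y ω 0) = redLg (Y ω0 0) ∧
      redLg (om (X ω) (Y ω)) = redLg (om (X ω0) (Y ω0)) := by
    intro ω hω
    obtain ⟨a1, a2⟩ := cw_ne_zero μ G hω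
    have a3 : K ω = K ω0 := (Prod.mk.inj a1).1
    have a4 : L ω = L ω0 := (Prod.mk.inj (Prod.mk.inj a1).2).1
    obtain ⟨b1, b2, b3, b4, _⟩ := redL_E hE0 a4
    exact ⟨a2, a1, a3, a4, b1, b2, b3, b4⟩
  have hX' : ∀ ω ω', cw μ G ω0 ω ≠ 0 → cw μ G ω0 ω' ≠ 0 →
      (redX n κ (X ω) (Y ω) = redX n κ (X ω') (Y ω') ↔ X ω = X ω') := by
    intro ω ω' h h'
    obtain ⟨_, _, k1, l1, _⟩ := hsup ω h
    obtain ⟨_, _, k2, l2, g2, _⟩ := hsup ω' h'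
    exact redX_det g2 (l1.trans l2.symm) (k1.trans k2.symm)
  have hY' : ∀ ω ω', cw μ G ω0 ω ≠ 0 → cw μ G ω0 ω' ≠ 0 → Y ω = Y ω' →
      redY n κ (X ω) (Y ω) = redY n κ (X ω') (Y ω') := by
    intro ω ω' h h' hy
    obtain ⟨_, _, k1, l1, _⟩ := hsup ω h
    obtain ⟨_, _, k2, l2, g2, _⟩ := hsup ω' h'
    exact redY_det g2 (l1.trans l2.symm) (k1.trans k2.symm) hy
  refine ⟨redLg (om (X ω0) (Y ω0)), cw μ G ω0, fun ω => redX n κ (X ω) (Y ω),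
    fun ω => redY n κ (X ω) (Y ω), red_lg_le (mul_nonneg hκ0.le hnp.le) hE0.1.le, hw, hws, hzb,
    ?_, ?_, ?_, ?_, ?_, ?_, ?_, ?_, ?_⟩
  · intro ω i; exact le_trans (redX_b (hxb ω) i) (by norm_num)
  · intro ω i; exact le_trans (redY_b (hxb ω) (hyb ω) i) (by norm_num)
  · intro ω hω
    obtain ⟨_, _, _, _, g1, _⟩ := hsup ω hω
    show 1 / 8 ≤ |om (redX n κ (X ω) (Y ω)) (redY n κ (X ω) (Y ω))|
    rw [red_om_eq g1, abs_mul, abs_of_pos (by positivity : (0 : ℝ) < 2 ^ redLg (om (X ω) (Y ω)))]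
    have := red_lg_lo (redE_ne g1).1
    linarith
  · have e1 : CH (cw μ G ω0) (fun ω => fl n (z ω)) (fun ω => (X ω, Y ω)) ≤
        CH (cw μ G ω0) (fun ω => fl n (z ω))
          (fun ω => (redX n κ (X ω) (Y ω), redY n κ (X ω) (Y ω))) := by
      apply ch_cond _ hw
      intro ω ω' _ _ hh
      have := Prod.mk.inj hh
      rw [this.1, this.2]
    have e2 : D1 ω0 = Hh (cw μ G ω0) (fun ω' => fl n (z ω')) -
      CH (cw μ G ω0) (fun ω' => fl n (z ω')) (fun ω' => (X ω', Y ω')) := rfl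
    rw [e2] at q1
    linarith
  · have hpt : ∀ ω, cw μ G ω0 ω ≠ 0 → z ω + om (redX n κ (X ω) (Y ω)) (redY n κ (X ω) (Y ω)) /
        2 ^ redLg (om (X ω0) (Y ω0)) = z ω + om (X ω) (Y ω) := by
      intro ω hω
      obtain ⟨_, _, _, _, g1, _, _, g4⟩ := hsup ω hω
      rw [red_om_eq g1, g4]
      congr 1
      field_simp
    have e0 : ∀ {γ : Type} (g : Ω → γ), CH (cw μ G ω0) (fun ω => fl n (z ω +
        om (redX n κ (X ω) (Y ω)) (redY n κ (X ω) (Y ω)) / 2 ^ redLg (om (X ω0) (Y ω0)))) g =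
        CH (cw μ G ω0) (fun ω => fl n (z ω + om (X ω) (Y ω))) g := by
      intro γ g
      apply ch_congr_left
      intro ω ω' h h' _
      simp only [hpt ω h, hpt ω' h']
    have e1 : CH (cw μ G ω0) (fun ω => fl n (z ω + om (X ω) (Y ω))) (fun ω => (X ω, Y ω)) ≤
        CH (cw μ G ω0) (fun ω => fl n (z ω + om (X ω) (Y ω)))
          (fun ω => (redX n κ (X ω) (Y ω), redY n κ (X ω) (Y ω))) := by
      apply ch_cond _ hw
      intro ω ω' _ _ hh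
      have := Prod.mk.inj hh
      rw [this.1, this.2]
    have e2 : D2 ω0 = Hh (cw μ G ω0) (fun ω' => fl n (z ω' + om (X ω') (Y ω'))) -
      CH (cw μ G ω0) (fun ω' => fl n (z ω' + om (X ω') (Y ω'))) (fun ω' => (X ω', Y ω')) := rfl
    rw [e2] at q2
    unfold Hh at q2 ⊢
    rw [e0, e0]
    linarith
  · have e1 : Hh (cw μ G ω0) (fun ω => redX n κ (X ω) (Y ω)) = Hh (cw μ G ω0) X := by
      unfold Hh
      apply ch_congr_left
      intro ω ω' h h' _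
      exact hX' ω ω' h h'
    have e2 : CH (cw μ G ω0) (fun ω => redX n κ (X ω) (Y ω)) (fun ω => redY n κ (X ω) (Y ω)) =
        CH (cw μ G ω0) X (fun ω => redY n κ (X ω) (Y ω)) := by
      apply ch_congr_left
      intro ω ω' h h' _
      exact hX' ω ω' h h'
    have e3 : CH (cw μ G ω0) X Y ≤ CH (cw μ G ω0) X (fun ω => redY n κ (X ω) (Y ω)) := by
      apply ch_cond _ hw
      intro ω ω' h h' hh
      exact hY' ω ω' h h' hh
    have e4 : D3 ω0 = Hh (cw μ G ω0) X - CH (cw μ G ω0) X Y := rfl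
    rw [e4] at q3
    rw [e1, e2]
    linarith
  · have e1 : Hh (cw μ G ω0) (fun ω => fl n (X ω 0)) ≤
        Hh (cw μ G ω0) (fun ω => fl n (redX n κ (X ω) (Y ω) 0)) := by
      unfold Hh
      apply ch_mono _ hw
      intro ω ω' h h' hh _
      obtain ⟨_, _, _, _, g1, g2, _⟩ := hsup ω h
      obtain ⟨_, _, _, _, g1', g2', _⟩ := hsup ω' h'
      rw [redX_zero g1, redX_zero g1', g2, g2'] at hh
      exact red_fl_scale hh
    have e2 : D4 ω0 = (n : ℝ) + 2 - Hh (cw μ G ω0) (fun ω' => fl n (X ω' 0)) := rfl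
    rw [e2] at q4
    linarith
  · have e1 : Hh (cw μ G ω0) (fun ω => fl n (Y ω 0)) ≤
        Hh (cw μ G ω0) (fun ω => fl n (redY n κ (X ω) (Y ω) 0)) := by
      unfold Hh
      apply ch_mono _ hw
      intro ω ω' h h' hh _
      obtain ⟨_, _, _, _, g1, _, g3, _⟩ := hsup ω h
      obtain ⟨_, _, _, _, g1', _, g3', _⟩ := hsup ω' h'
      rw [redY_zero g1, redY_zero g1', g3, g3'] at hh
      exact red_fl_scale hh
    have e2 : D5 ω0 = (n : ℝ) + 2 - Hh (cw μ G ω0) (fun ω' => fl n (Y ω' 0)) := rfl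
    rw [e2] at q5
    linarith
  · refine le_trans (Pw_mono _ hw ?_) q6
    intro ω hω hh
    obtain ⟨a, b, hab, hbn, hlt⟩ := hh
    obtain ⟨g0, g1, _⟩ := hsup ω hω
    refine ⟨a, b, hab, hbn, ?_⟩
    rwa [red_srp_cw μ hμ (fun ω' => fl b (z ω')) (fun ω' => fl a (z ω')) G ω0 ω hω0 g0 g1] at hlt

end core

/-! ### numbers -/

theorem red_num1 {τ : ℝ} (hτ : 0 < τ) : ∃ n0 : ℕ, ∀ n : ℕ, n0 ≤ n →
    3 * Real.logb 2 ((n : ℝ) + 2) ≤ τ * n := by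
  have hl : 0 < Real.log 2 := Real.log_pos (by norm_num)
  have hd : 0 < τ * Real.log 2 / 9 := by positivity
  have h1 := Real.isLittleO_log_id_atTop.def hd
  obtain ⟨a, ha⟩ := Filter.eventually_atTop.1 h1
  refine ⟨⌈a⌉₊ + 1, fun n hn => ?_⟩
  have hn1 : (1 : ℝ) ≤ n := by exact_mod_cast (by omega : 1 ≤ n)
  have hna : a ≤ (n : ℝ) + 2 := by
    have h2 : a ≤ ⌈a⌉₊ := Nat.le_ceil a
    have h3 : ((⌈a⌉₊ : ℕ) : ℝ) ≤ n := by exact_mod_cast (by omega : ⌈a⌉₊ ≤ n)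
    linarith
  have h4 := ha ((n : ℝ) + 2) hna
  rw [Real.norm_eq_abs, Real.norm_eq_abs, id, abs_of_pos (by linarith : (0 : ℝ) < (n : ℝ) + 2)] at h4
  have h5 : Real.log ((n : ℝ) + 2) ≤ τ * Real.log 2 / 9 * ((n : ℝ) + 2) := le_trans (le_abs_self _) h4
  have h6 : Real.logb 2 ((n : ℝ) + 2) = Real.log ((n : ℝ) + 2) / Real.log 2 := rfl
  have h7 : Real.log ((n : ℝ) + 2) / Real.log 2 ≤ τ / 9 * ((n : ℝ) + 2) := by
    rw [div_le_iff₀ hl]
    linarith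
  rw [h6]
  nlinarith

theorem red_num3 {e δ : ℝ} (he : 0 < e) (hδ : 0 < δ) : ∃ n0 : ℕ, ∀ n : ℕ, n0 ≤ n →
    ((n : ℝ) + 1) ^ 2 * (2 : ℝ) ^ (-(e * n)) ≤ δ := by
  have hr0 : (0 : ℝ) < (2 : ℝ) ^ (-e) := Real.rpow_pos_of_pos (by norm_num) _
  have hr1 : (2 : ℝ) ^ (-e) < 1 := by
    have : (2 : ℝ) ^ (-e) < (2 : ℝ) ^ (0 : ℝ) :=
      Real.rpow_lt_rpow_of_exponent_lt (by norm_num) (by linarith)
    rwa [Real.rpow_zero] at this
  have h1 := tendsto_pow_const_mul_const_pow_of_abs_lt_one 2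
    (r := (2 : ℝ) ^ (-e)) (by rw [abs_of_pos hr0]; exact hr1)
  have h2 : ∀ᶠ m : ℕ in Filter.atTop, (m : ℝ) ^ 2 * ((2 : ℝ) ^ (-e)) ^ m < δ * (2 : ℝ) ^ (-e) :=
    h1.eventually (gt_mem_nhds (mul_pos hδ hr0))
  obtain ⟨a, ha⟩ := Filter.eventually_atTop.1 h2
  refine ⟨a, fun n hn => ?_⟩
  have h3 := ha (n + 1) (by omega)
  rw [pow_succ (((2 : ℝ) ^ (-e))) n, ← mul_assoc] at h3
  have h4 := lt_of_mul_lt_mul_right h3 hr0.le
  have h5 : ((2 : ℝ) ^ (-e)) ^ n = (2 : ℝ) ^ (-(e * n)) := by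
    rw [← Real.rpow_natCast, ← Real.rpow_mul (by norm_num)]
    congr 1; ring
  rw [h5] at h4
  push_cast at h4
  exact h4.le

/-- **the block form follows from the non-existence of the visible configuration** -/
theorem st_RED : ST_RED := by
  intro hC c κ ε hc hc1 hκ0 hκ hε
  obtain ⟨η1, hη1, n1, hn1⟩ := hC c κ hc hc1 hκ0 hκ
  let ε' : ℝ := ε
  let e : ℝ := min η1 (min 1 (1 / (1 + ε)))
  have he : 0 < e := lt_min hη1 (lt_min (by norm_num) (by positivity))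
  have he1 : e ≤ 1 := le_trans (min_le_right _ _) (min_le_left _ _)
  have heη : e ≤ η1 := min_le_left _ _
  have hee : ε * e ≤ 1 := by
    have h1 : e ≤ 1 / (1 + ε) := le_trans (min_le_right _ _) (min_le_right _ _)
    have h2 : ε * e ≤ ε * (1 / (1 + ε)) := mul_le_mul_of_nonneg_left h1 hε.le
    have h3 : ε * (1 / (1 + ε)) ≤ 1 := by
      rw [mul_one_div, div_le_one (by positivity)]; linarith
    linarith
  -- the precision
  let η : ℝ := min (ε * e / 100) (e / 2)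
  have hη0 : 0 < η := lt_min (by positivity) (by positivity)
  have hηa : η ≤ ε * e / 100 := min_le_left _ _
  have hηb : η ≤ e / 2 := min_le_right _ _
  obtain ⟨na, hna⟩ := red_num1 (τ := ε * e / 1000) (by positivity)
  obtain ⟨nc, hnc⟩ := red_num3 (e := e / 2) (δ := ε * e / 100) (by positivity) (by positivity)
  obtain ⟨nb, hnb⟩ := exists_nat_ge (8 / (ε * e / 1000))
  refine ⟨η, hη0, max n1 (max na (max nb (max nc 1))), fun n hn Ω φ _ μ F z X Y hB => ?_⟩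
  have k1 : n1 ≤ n := le_trans (le_max_left _ _) hn
  have k2 : na ≤ n := le_trans (le_trans (le_max_left _ _) (le_max_right _ _)) hn
  have k3 : nb ≤ n := le_trans (le_trans (le_trans (le_max_left _ _) (le_max_right _ _)) (le_max_right _ _)) hn
  have k4 : nc ≤ n := le_trans (le_trans (le_trans (le_trans (le_max_left _ _) (le_max_right _ _))
    (le_max_right _ _)) (le_max_right _ _)) hn
  have k5 : 1 ≤ n := le_trans (le_trans (le_trans (le_trans (le_max_right _ _) (le_max_right _ _))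
    (le_max_right _ _)) (le_max_right _ _)) hn
  by_contra hbad
  rw [not_le] at hbad
  have hnp : (0 : ℝ) < n := by exact_mod_cast (by omega : 0 < n)
  have g2 : 8 ≤ ε * e / 1000 * n := by
    have hp : 0 < ε * e / 1000 := by positivity
    have : 8 / (ε * e / 1000) ≤ n := le_trans hnb (by exact_mod_cast k3)
    rw [div_le_iff₀ hp] at this
    linarith
  have g3 : ((n : ℝ) + 1) ^ 2 * (2 : ℝ) ^ (-((e - η) * n)) ≤ ε * e / 100 := by
    refine le_trans (mul_le_mul_of_nonneg_left ?_ (by positivity)) (hnc n k4)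
    apply Real.rpow_le_rpow_of_exponent_le (by norm_num)
    have : e / 2 * n ≤ (e - η) * n := mul_le_mul_of_nonneg_right (by linarith) hnp.le
    linarith
  obtain ⟨s, w, X', Y', hs, hcfg⟩ := red_core μ F z X Y hB hε he he1 hκ0 hκ hη0.le hηa k5
    (hna n k2) g2 g3 hbad
  exact hn1 n s k1 hs Ω w z X' Y' (red_cfg_mono hcfg heη)

end Pool.Agent.Helper92.W
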