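import Pool.Agent.Helper92.W.St

/-!
# Reduction of the block form to the visible configuration: auxiliary lemmas
-/

set_option autoImplicit false

namespace Pool.Agent.Helper92.W

open Finset Pool.Agent.Helper69.RK Pool.Agent.Helper61.GL Pool.Agent.Helper46.WF

/-! ### dyadic labels of a real number -/

/-- the dyadic label -/
noncomputable def redLg (x : ℝ) : ℕ := ⌊-Real.logb 2 |x|⌋₊

theorem red_two_rpow_logb {x : ℝ} (hx : x ≠ 0) : (2 : ℝ) ^ (Real.logb 2 |x|) = |x| :=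
  Real.rpow_logb (by norm_num) (by norm_num) (abs_pos.2 hx)

theorem red_pow_mul {x : ℝ} (hx : x ≠ 0) (m : ℕ) :
    (2 : ℝ) ^ m * |x| = (2 : ℝ) ^ ((m : ℝ) + Real.logb 2 |x|) := by
  rw [Real.rpow_add (by norm_num), red_two_rpow_logb hx, Real.rpow_natCast]

theorem red_lg_lo {x : ℝ} (hx : x ≠ 0) : 1 / 2 < (2 : ℝ) ^ redLg x * |x| := by
  rw [red_pow_mul hx]
  have h : -Real.logb 2 |x| < (redLg x : ℝ) + 1 := Nat.lt_floor_add_one _
  have h2 : ((1 : ℝ) / 2) = (2 : ℝ) ^ (-1 : ℝ) := by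
    rw [Real.rpow_neg_one]; norm_num
  rw [h2]
  exact Real.rpow_lt_rpow_of_exponent_lt (by norm_num) (by linarith)

theorem red_lg_hi {x : ℝ} (hx : x ≠ 0) {M : ℝ} (h1 : 1 ≤ M) (h : |x| ≤ M) :
    (2 : ℝ) ^ redLg x * |x| ≤ M := by
  by_cases hu : 0 ≤ -Real.logb 2 |x|
  · rw [red_pow_mul hx]
    have h3 : (redLg x : ℝ) ≤ -Real.logb 2 |x| := Nat.floor_le hu
    refine le_trans (Real.rpow_le_one_of_one_le_of_nonpos (by norm_num) (by linarith)) h1
  · have h0 : redLg x = 0 := Nat.floor_of_nonpos (le_of_lt (not_le.1 hu))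
    rw [h0, pow_zero, one_mul]; exact h

theorem red_lg_le {x r : ℝ} (hr : 0 ≤ r) (h : (2 : ℝ) ^ (-r) ≤ |x|) : (redLg x : ℝ) ≤ r := by
  have hx : 0 < |x| := lt_of_lt_of_le (Real.rpow_pos_of_pos (by norm_num) _) h
  have h1 : -r ≤ Real.logb 2 |x| := by
    rw [Real.le_logb_iff_rpow_le (by norm_num) hx]; exact h
  by_cases hu : 0 ≤ -Real.logb 2 |x|
  · exact le_trans (Nat.floor_le hu) (by linarith)
  · have h0 : redLg x = 0 := Nat.floor_of_nonpos (le_of_lt (not_le.1 hu))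
    rw [h0]; simpa using hr

/-! ### elementary facts about weighted laws -/

section aux

variable {Ω α β γ δ : Type} [Fintype Ω]

theorem red_Pw_ex {ι : Type} (w : Ω → ℝ) (hw : ∀ ω, 0 ≤ w ω) (S : Finset ι) (A : ι → Ω → Prop) :
    Pw w (fun ω => ∃ i ∈ S, A i ω) ≤ ∑ i ∈ S, Pw w (A i) := by
  classical
  have e1 : Pw w (fun ω => ∃ i ∈ S, A i ω) = ∑ ω, if (∃ i ∈ S, A i ω) then w ω else 0 := by
    unfold Pw
    refine sum_congr rfl fun ω _ => ?_
    by_cases h : ∃ i ∈ S, A i ω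
    · simp only [if_pos h]
    · simp only [if_neg h]
  have e2 : ∀ i, Pw w (A i) = ∑ ω, if A i ω then w ω else 0 := by
    intro i
    unfold Pw
    refine sum_congr rfl fun ω _ => ?_
    by_cases h : A i ω
    · simp only [if_pos h]
    · simp only [if_neg h]
  rw [e1, sum_congr rfl (fun i _ => e2 i), sum_comm]
  refine sum_le_sum fun ω _ => ?_
  have hnn : ∀ i ∈ S, 0 ≤ (if A i ω then w ω else 0) := by
    intro i _
    by_cases h : A i ω
    · rw [if_pos h]; exact hw ω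
    · rw [if_neg h]
  by_cases h : ∃ i ∈ S, A i ω
  · rw [if_pos h]
    obtain ⟨i, hi, hA⟩ := h
    have := single_le_sum hnn hi
    rwa [if_pos hA] at this
  · rw [if_neg h]; exact sum_nonneg hnn

theorem red_pr_cw (μ : Ω → ℝ) (f : Ω → α) (G : Ω → γ) (ω0 ω : Ω) (h : G ω = G ω0) :
    pr (cw μ G ω0) f ω = pr μ (fun ω' => (f ω', G ω')) ω / pr μ G ω0 := by
  classical
  rw [e1_pr_eq, e1_pr_eq, sum_div]
  refine sum_congr rfl fun ω' _ => ?_
  unfold cw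
  by_cases h1 : f ω' = f ω
  · by_cases h2 : G ω' = G ω0
    · rw [if_pos h1, if_pos h2, if_pos (by rw [h1, h2, h])]
    · rw [if_pos h1, if_neg h2, if_neg (by
        intro h3; exact h2 ((Prod.mk.inj h3).2.trans h)), zero_div]
  · rw [if_neg h1, if_neg (by intro h3; exact h1 (Prod.mk.inj h3).1), zero_div]

/-- disintegration of conditional entropies -/
theorem red_disint (μ : Ω → ℝ) (hμ : ∀ ω, 0 ≤ μ ω) (f : Ω → α) (g : Ω → β) (G : Ω → γ) :
    CH μ f (fun ω => (g ω, G ω)) = ∑ ω, μ ω * CH (cw μ G ω) f g := by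
  have h1 := ch_chain μ g f G
  have h2 : ∀ ω, CH (cw μ G ω) f g = Hh (cw μ G ω) (fun ω' => (g ω', f ω')) - Hh (cw μ G ω) g := by
    intro ω
    have h3 := ch_chain (cw μ G ω) g f (fun _ => ())
    have h4 : CH (cw μ G ω) f (fun ω' => (g ω', ())) = CH (cw μ G ω) f g := by
      apply ch_congr_right
      intro a b _ _
      constructor
      · intro h; exact (Prod.mk.inj h).1
      · intro h; rw [h]
    unfold Hh
    rw [h3, h4]; ring
  have h5 : ∑ ω, μ ω * CH (cw μ G ω) f g =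
      ∑ ω, μ ω * Hh (cw μ G ω) (fun ω' => (g ω', f ω')) - ∑ ω, μ ω * Hh (cw μ G ω) g := by
    rw [← sum_sub_distrib]
    refine sum_congr rfl fun ω _ => ?_
    rw [h2]; ring
  rw [h5, ← CH_disint μ hμ, ← CH_disint μ hμ, h1]; ring

/-- surprisal under the conditional law -/
theorem red_srp_cw (μ : Ω → ℝ) (hμ : ∀ ω, 0 ≤ μ ω) (f : Ω → α) (g : Ω → β) (G : Ω → γ) (ω0 ω : Ω)
    (h0 : μ ω0 ≠ 0) (h1 : μ ω ≠ 0) (h : G ω = G ω0) :
    srp (cw μ G ω0) f g ω = srp μ f (fun ω' => (g ω', G ω')) ω := by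
  unfold srp
  rw [red_pr_cw μ g G ω0 ω h, red_pr_cw μ (fun ω' => (f ω', g ω')) G ω0 ω h]
  have e0 : pr μ G ω0 ≠ 0 := ne_of_gt (e1_pr_pos μ G hμ ω0 h0)
  have e1 : pr μ (fun ω' => (g ω', G ω')) ω ≠ 0 := ne_of_gt (e1_pr_pos μ _ hμ ω h1)
  have e2 : pr μ (fun ω' => ((f ω', g ω'), G ω')) ω ≠ 0 := ne_of_gt (e1_pr_pos μ _ hμ ω h1)
  rw [Real.logb_div e1 e0, Real.logb_div e2 e0]
  have e3 : pr μ (fun ω' => ((f ω', g ω'), G ω')) ω = pr μ (fun ω' => (f ω', (g ω', G ω'))) ω := by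
    apply e1_pr_congr
    intro ω' _
    constructor
    · intro hh
      have h3 := Prod.mk.inj hh
      have h4 := Prod.mk.inj h3.1
      rw [h4.1, h4.2, h3.2]
    · intro hh
      have h3 := Prod.mk.inj hh
      have h4 := Prod.mk.inj h3.2
      rw [h3.1, h4.1, h4.2]
  rw [e3]; ring

/-- the mean of the likelihood ratio is at most one -/
theorem red_lr (μ : Ω → ℝ) (hμ : ∀ ω, 0 ≤ μ ω) (hm : mass μ = 1) (f : Ω → α) (g : Ω → β) (h : Ω → γ)
    (hr : ∀ ω ω', h ω = h ω' → g ω = g ω') :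
    ∑ ω, μ ω * ((pr μ (fun ω' => (f ω', g ω')) ω / pr μ g ω) /
      (pr μ (fun ω' => (f ω', h ω')) ω / pr μ h ω)) ≤ 1 := by
  classical
  rw [← cw_expect μ hμ h]
  have key : ∀ ω, μ ω ≠ 0 → ∑ ω', cw μ h ω ω' * ((pr μ (fun ω'' => (f ω'', g ω'')) ω' / pr μ g ω') /
      (pr μ (fun ω'' => (f ω'', h ω'')) ω' / pr μ h ω')) ≤ 1 := by
    intro ω hω
    let r : α → ℝ := fun c => ∑ ω'', if f ω'' = c then cw μ g ω ω'' else 0
    have hr0 : ∀ c, 0 ≤ r c := by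
      intro c
      refine sum_nonneg fun ω'' _ => ?_
      by_cases hc : f ω'' = c
      · rw [if_pos hc]; exact cw_nonneg μ g hμ ω ω''
      · rw [if_neg hc]
    have e1 := sum_div_pr_le (cw μ h ω) (cw_nonneg μ h hμ ω) f (univ.image f) r hr0
      (fun ω' _ => mem_image_of_mem f (mem_univ ω'))
    have e2 : ∑ c ∈ univ.image f, r c ≤ 1 := by
      have e3 : ∑ c ∈ univ.image f, r c = ∑ ω'', cw μ g ω ω'' := by
        rw [sum_comm]
        refine sum_congr rfl fun ω'' _ => ?_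
        rw [sum_ite_eq, if_pos (mem_image_of_mem f (mem_univ ω''))]
      rw [e3, cw_sum μ g hμ ω hω]
    refine le_trans (le_of_eq ?_) (le_trans e1 e2)
    refine sum_congr rfl fun ω' _ => ?_
    by_cases hz : cw μ h ω ω' = 0
    · rw [hz, zero_mul, zero_mul]
    · obtain ⟨hh, hμ'⟩ := cw_ne_zero μ h hz
      have hg : g ω' = g ω := hr _ _ hh
      have e4 : r (f ω') = pr μ (fun ω'' => (f ω'', g ω'')) ω' / pr μ g ω' := by
        rw [e1_pr_atom μ g ω' ω hg, ← red_pr_cw μ f g ω ω' hg, e1_pr_eq]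
      rw [e4, red_pr_cw μ f h ω ω' hh, e1_pr_atom μ h ω' ω hh]
  have e5 : ∑ ω, μ ω * ∑ ω', cw μ h ω ω' * ((pr μ (fun ω'' => (f ω'', g ω'')) ω' / pr μ g ω') /
      (pr μ (fun ω'' => (f ω'', h ω'')) ω' / pr μ h ω')) ≤ ∑ ω, μ ω := by
    refine sum_le_sum fun ω _ => ?_
    by_cases hω : μ ω = 0
    · rw [hω, zero_mul]
    · exact mul_le_of_le_one_right (hμ ω) (key ω hω)
  unfold mass at hm
  rwa [hm] at e5

theorem red_srp_tail (μ : Ω → ℝ) (hμ : ∀ ω, 0 ≤ μ ω) (hm : mass μ = 1) (f : Ω → α) (g : Ω → β) (h : Ω → γ)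
    (hr : ∀ ω ω', h ω = h ω' → g ω = g ω') (t : ℝ) :
    Pw μ (fun ω => srp μ f g ω + t < srp μ f h ω) ≤ (2 : ℝ) ^ (-t) := by
  have h1 := red_lr μ hμ hm f g h hr
  have ht : (0 : ℝ) < 2 ^ t := Real.rpow_pos_of_pos (by norm_num) _
  have h2 := Pw_markov μ hμ (fun ω => (pr μ (fun ω' => (f ω', g ω')) ω / pr μ g ω) /
      (pr μ (fun ω' => (f ω', h ω')) ω / pr μ h ω)) (by
        intro ω _
        exact div_nonneg (div_nonneg (e1_pr_nonneg _ _ hμ _) (e1_pr_nonneg _ _ hμ _))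
          (div_nonneg (e1_pr_nonneg _ _ hμ _) (e1_pr_nonneg _ _ hμ _))) ht h1
  refine le_trans (Pw_mono μ hμ ?_) (le_trans h2 (le_of_eq ?_))
  · intro ω hω hlt
    have p1 : 0 < pr μ (fun ω' => (f ω', g ω')) ω := e1_pr_pos μ _ hμ ω hω
    have p2 : 0 < pr μ g ω := e1_pr_pos μ _ hμ ω hω
    have p3 : 0 < pr μ (fun ω' => (f ω', h ω')) ω := e1_pr_pos μ _ hμ ω hω
    have p4 : 0 < pr μ h ω := e1_pr_pos μ _ hμ ω hω
    unfold srp at hlt
    show (2 : ℝ) ^ t < _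
    rw [← Real.lt_logb_iff_rpow_lt (by norm_num) (div_pos (div_pos p1 p2) (div_pos p3 p4)),
      Real.logb_div (div_pos p1 p2).ne' (div_pos p3 p4).ne', Real.logb_div p1.ne' p2.ne',
      Real.logb_div p3.ne' p4.ne']
    linarith
  · rw [Real.rpow_neg (by norm_num), one_div]

/-- all the surprisals at once -/
theorem red_un (μ : Ω → ℝ) (hμ : ∀ ω, 0 ≤ μ ω) (hm : mass μ = 1) (z : Ω → ℝ) (F : Ω → β) (G : Ω → γ)
    (hr : ∀ ω ω', G ω = G ω' → F ω = F ω') (n : ℕ) (c η e : ℝ)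
    (hu : Pw μ (fun ω => ∃ a b : ℕ, a ≤ b ∧ b ≤ n ∧ (1 - c) * ((b : ℝ) - a) + η * n <
      srp μ (fun ω' => fl b (z ω')) (fun ω' => (fl a (z ω'), F ω')) ω) ≤ η) :
    Pw μ (fun ω => ∃ a b : ℕ, a ≤ b ∧ b ≤ n ∧ (1 - c) * ((b : ℝ) - a) + e * n <
      srp μ (fun ω' => fl b (z ω')) (fun ω' => (fl a (z ω'), G ω')) ω) ≤
      η + ((n : ℝ) + 1) ^ 2 * (2 : ℝ) ^ (-((e - η) * n)) := by
  let A : ℕ × ℕ → Ω → Prop := fun i ω =>
    srp μ (fun ω' => fl i.2 (z ω')) (fun ω' => (fl i.1 (z ω'), F ω')) ω + (e - η) * n <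
      srp μ (fun ω' => fl i.2 (z ω')) (fun ω' => (fl i.1 (z ω'), G ω')) ω
  have h1 : ∀ i, Pw μ (A i) ≤ (2 : ℝ) ^ (-((e - η) * n)) := by
    intro i
    apply red_srp_tail μ hμ hm
    intro ω ω' h
    have h2 := Prod.mk.inj h
    rw [h2.1, hr _ _ h2.2]
  have h2 := red_Pw_ex μ hμ (range (n + 1) ×ˢ range (n + 1)) A
  have h3 : ∑ i ∈ range (n + 1) ×ˢ range (n + 1), Pw μ (A i) ≤
      ((n : ℝ) + 1) ^ 2 * (2 : ℝ) ^ (-((e - η) * n)) := by
    refine le_trans (sum_le_sum fun i _ => h1 i) (le_of_eq ?_)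
    rw [sum_const, card_product, card_range, nsmul_eq_mul]
    push_cast; ring
  refine le_trans (Pw_mono μ hμ (B := fun ω => (∃ a b : ℕ, a ≤ b ∧ b ≤ n ∧
      (1 - c) * ((b : ℝ) - a) + η * n <
      srp μ (fun ω' => fl b (z ω')) (fun ω' => (fl a (z ω'), F ω')) ω) ∨
      ∃ i ∈ range (n + 1) ×ˢ range (n + 1), A i ω) ?_) ?_
  · intro ω _ hω
    obtain ⟨a, b, hab, hbn, hlt⟩ := hω
    by_cases hc : (1 - c) * ((b : ℝ) - a) + η * n <
      srp μ (fun ω' => fl b (z ω')) (fun ω' => (fl a (z ω'), F ω')) ω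
    · exact Or.inl ⟨a, b, hab, hbn, hc⟩
    · refine Or.inr ⟨(a, b), ?_, ?_⟩
      · rw [mem_product, mem_range, mem_range]
        exact ⟨by simp only; omega, by simp only; omega⟩
      · show _ + _ < _
        simp only
        rw [not_lt] at hc
        linarith
  · refine le_trans (Pw_or μ hμ _ _) ?_
    linarith

end aux

end Pool.Agent.Helper92.W
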