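import Pool.Agent.Helper20.W.RedA

/-!
# Reduction of the block form to the visible configuration: rounding and information
-/

set_option autoImplicit false

namespace Pool.Agent.Helper92.W

open Finset Pool.Agent.Helper69.RK Pool.Agent.Helper61.GL Pool.Agent.Helper46.WF

/-! ### rounding -/

/-- the visible event -/
def redE (n : ℕ) (κ : ℝ) (x y : Fin 2 → ℝ) : Prop :=
  (2 : ℝ) ^ (-(κ * n)) < |om x y| ∧ (2 : ℝ) ^ (-(n : ℝ)) ≤ |x 0| ∧ (2 : ℝ) ^ (-(n : ℝ)) ≤ |y 0|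

/-- the dilation factor -/
noncomputable def redS (x y : Fin 2 → ℝ) : ℝ :=
  2 ^ redLg (om x y) / (2 ^ redLg (x 0) * 2 ^ redLg (y 0))

open Classical in
/-- the three labels -/
noncomputable def redL (n : ℕ) (κ : ℝ) (x y : Fin 2 → ℝ) : ℤ × ℤ × ℤ :=
  if redE n κ x y then ((redLg (x 0) : ℤ) + 1, (redLg (y 0) : ℤ) + 1, (redLg (om x y) : ℤ) + 1) else (0, 0, 0)

open Classical in
/-- the slope -/
noncomputable def redK (n : ℕ) (κ : ℝ) (x y : Fin 2 → ℝ) : ℤ :=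
  if redE n κ x y then ⌊redS x y * x 1 / x 0⌋ else 0

open Classical in
/-- the normalized vector -/
noncomputable def redX (n : ℕ) (κ : ℝ) (x y : Fin 2 → ℝ) : Fin 2 → ℝ :=
  if redE n κ x y then ![2 ^ redLg (x 0) * x 0, 2 ^ redLg (x 0) * (redS x y * x 1 - redK n κ x y * x 0)]
  else 0

open Classical in
/-- the normalized vector -/
noncomputable def redY (n : ℕ) (κ : ℝ) (x y : Fin 2 → ℝ) : Fin 2 → ℝ :=
  if redE n κ x y then ![2 ^ redLg (y 0) * y 0, 2 ^ redLg (y 0) * (redS x y * y 1 - redK n κ x y * y 0)]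
  else 0

theorem redE_ne {n : ℕ} {κ : ℝ} {x y : Fin 2 → ℝ} (h : redE n κ x y) :
    om x y ≠ 0 ∧ x 0 ≠ 0 ∧ y 0 ≠ 0 := by
  obtain ⟨h1, h2, h3⟩ := h
  refine ⟨?_, ?_, ?_⟩
  · exact abs_pos.1 (lt_trans (Real.rpow_pos_of_pos (by norm_num) _) h1)
  · exact abs_pos.1 (lt_of_lt_of_le (Real.rpow_pos_of_pos (by norm_num) _) h2)
  · exact abs_pos.1 (lt_of_lt_of_le (Real.rpow_pos_of_pos (by norm_num) _) h3)

theorem redX_zero {n : ℕ} {κ : ℝ} {x y : Fin 2 → ℝ} (h : redE n κ x y) :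
    redX n κ x y 0 = 2 ^ redLg (x 0) * x 0 := by
  unfold redX; rw [if_pos h]; rfl

theorem redX_one {n : ℕ} {κ : ℝ} {x y : Fin 2 → ℝ} (h : redE n κ x y) :
    redX n κ x y 1 = 2 ^ redLg (x 0) * (redS x y * x 1 - redK n κ x y * x 0) := by
  unfold redX; rw [if_pos h]; rfl

theorem redY_zero {n : ℕ} {κ : ℝ} {x y : Fin 2 → ℝ} (h : redE n κ x y) :
    redY n κ x y 0 = 2 ^ redLg (y 0) * y 0 := by
  unfold redY; rw [if_pos h]; rfl

theorem redY_one {n : ℕ} {κ : ℝ} {x y : Fin 2 → ℝ} (h : redE n κ x y) :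
    redY n κ x y 1 = 2 ^ redLg (y 0) * (redS x y * y 1 - redK n κ x y * y 0) := by
  unfold redY; rw [if_pos h]; rfl

theorem redK_pos {n : ℕ} {κ : ℝ} {x y : Fin 2 → ℝ} (h : redE n κ x y) :
    redK n κ x y = ⌊redS x y * x 1 / x 0⌋ := by
  unfold redK; rw [if_pos h]

theorem red_om_le {x y : Fin 2 → ℝ} {a b : ℝ} (ha : ∀ i, |x i| ≤ a) (hb : ∀ i, |y i| ≤ b) (ha0 : 0 ≤ a) :
    |om x y| ≤ 2 * (a * b) := by
  unfold om
  have h1 : |x 0 * y 1 - x 1 * y 0| ≤ |x 0 * y 1| + |x 1 * y 0| := abs_sub _ _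
  have h2 : |x 0 * y 1| ≤ a * b := by
    rw [abs_mul]; exact mul_le_mul (ha 0) (hb 1) (abs_nonneg _) ha0
  have h3 : |x 1 * y 0| ≤ a * b := by
    rw [abs_mul]; exact mul_le_mul (ha 1) (hb 0) (abs_nonneg _) ha0
  linarith

theorem red_om_eq {n : ℕ} {κ : ℝ} {x y : Fin 2 → ℝ} (h : redE n κ x y) :
    om (redX n κ x y) (redY n κ x y) = 2 ^ redLg (om x y) * om x y := by
  have h1 : om (redX n κ x y) (redY n κ x y) = redX n κ x y 0 * redY n κ x y 1 -
    redX n κ x y 1 * redY n κ x y 0 := rfl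
  have h2 : om x y = x 0 * y 1 - x 1 * y 0 := rfl
  rw [h1, redX_zero h, redX_one h, redY_zero h, redY_one h]
  have hA : (2 : ℝ) ^ redLg (x 0) ≠ 0 := by positivity
  have hB : (2 : ℝ) ^ redLg (y 0) ≠ 0 := by positivity
  have h3 : redS x y * (2 ^ redLg (x 0) * 2 ^ redLg (y 0)) = 2 ^ redLg (om x y) := by
    unfold redS; field_simp
  rw [← h3]
  conv_rhs => rw [h2]
  ring

theorem redX_b {n : ℕ} {κ : ℝ} {x y : Fin 2 → ℝ} (hx : ∀ i, |x i| ≤ 1) :
    ∀ i, |redX n κ x y i| ≤ 1 := by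
  by_cases h : redE n κ x y
  · obtain ⟨_, hx0, _⟩ := redE_ne h
    have h0 : |redX n κ x y 0| ≤ 1 := by
      rw [redX_zero h, abs_mul, abs_of_pos (by positivity : (0 : ℝ) < 2 ^ redLg (x 0))]
      exact red_lg_hi hx0 le_rfl (hx 0)
    have h1 : |redX n κ x y 1| ≤ 1 := by
      have e1 : redX n κ x y 1 = redX n κ x y 0 * (redS x y * x 1 / x 0 - redK n κ x y) := by
        rw [redX_one h, redX_zero h]; field_simp
      have e2 : |redS x y * x 1 / x 0 - redK n κ x y| ≤ 1 := by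
        rw [redK_pos h, abs_le]
        have := Int.floor_le (redS x y * x 1 / x 0)
        have := Int.lt_floor_add_one (redS x y * x 1 / x 0)
        constructor <;> linarith
      rw [e1, abs_mul]
      calc _ ≤ (1 : ℝ) * 1 := mul_le_mul h0 e2 (abs_nonneg _) (by norm_num)
        _ = 1 := by norm_num
    intro i; fin_cases i
    · exact h0
    · exact h1
  · intro i; unfold redX; rw [if_neg h]; simp

theorem redX_lo {n : ℕ} {κ : ℝ} {x y : Fin 2 → ℝ} (h : redE n κ x y) : 1 / 2 < |redX n κ x y 0| := by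
  obtain ⟨_, hx0, _⟩ := redE_ne h
  rw [redX_zero h, abs_mul, abs_of_pos (by positivity : (0 : ℝ) < 2 ^ redLg (x 0))]
  exact red_lg_lo hx0

theorem redY_b {n : ℕ} {κ : ℝ} {x y : Fin 2 → ℝ} (hx : ∀ i, |x i| ≤ 1) (hy : ∀ i, |y i| ≤ 1) :
    ∀ i, |redY n κ x y i| ≤ 6 := by
  by_cases h : redE n κ x y
  · obtain ⟨ho, hx0, hy0⟩ := redE_ne h
    have h0 : |redY n κ x y 0| ≤ 1 := by
      rw [redY_zero h, abs_mul, abs_of_pos (by positivity : (0 : ℝ) < 2 ^ redLg (y 0))]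
      exact red_lg_hi hy0 le_rfl (hy 0)
    have hX := redX_b (n := n) (κ := κ) (y := y) hx
    have hom : |om (redX n κ x y) (redY n κ x y)| ≤ 2 := by
      rw [red_om_eq h, abs_mul, abs_of_pos (by positivity : (0 : ℝ) < 2 ^ redLg (om x y))]
      refine red_lg_hi ho (by norm_num) ?_
      have := red_om_le hx hy (by norm_num)
      linarith
    have h1 : |redY n κ x y 1| ≤ 6 := by
      have e1 : redX n κ x y 0 * redY n κ x y 1 = om (redX n κ x y) (redY n κ x y) +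
          redX n κ x y 1 * redY n κ x y 0 := by
        show _ = redX n κ x y 0 * redY n κ x y 1 - redX n κ x y 1 * redY n κ x y 0 + _
        ring
      have e2 : |redX n κ x y 0| * |redY n κ x y 1| ≤ 3 := by
        rw [← abs_mul, e1]
        refine le_trans (abs_add_le _ _) ?_
        have : |redX n κ x y 1 * redY n κ x y 0| ≤ 1 * 1 := by
          rw [abs_mul]; exact mul_le_mul (hX 1) h0 (abs_nonneg _) (by norm_num)
        linarith
      have e3 := redX_lo h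
      by_contra hc
      rw [not_le] at hc
      nlinarith [abs_nonneg (redY n κ x y 1)]
    intro i; fin_cases i
    · exact le_trans h0 (by norm_num)
    · exact h1
  · intro i; unfold redY; rw [if_neg h]; simp

/-- the slope is almost determined by the second vector -/
theorem redK_near {n : ℕ} {κ : ℝ} {x y : Fin 2 → ℝ} (h : redE n κ x y) (hx : ∀ i, |x i| ≤ 1)
    (hy : ∀ i, |y i| ≤ 1) : |(redK n κ x y : ℝ) - redS x y * y 1 / y 0| ≤ 12 := by
  obtain ⟨_, _, hy0⟩ := redE_ne h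
  have h1 := redY_b (n := n) (κ := κ) hx hy 1
  have h2 : 1 / 2 < |redY n κ x y 0| := by
    rw [redY_zero h, abs_mul, abs_of_pos (by positivity : (0 : ℝ) < 2 ^ redLg (y 0))]
    exact red_lg_lo hy0
  have e1 : redY n κ x y 1 = redY n κ x y 0 * (redS x y * y 1 / y 0 - redK n κ x y) := by
    rw [redY_one h, redY_zero h]; field_simp
  rw [e1, abs_mul] at h1
  rw [abs_sub_comm]
  by_contra hc
  rw [not_le] at hc
  nlinarith [abs_nonneg (redS x y * y 1 / y 0 - redK n κ x y)]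

theorem redL_range {n : ℕ} {κ : ℝ} (hκ0 : 0 ≤ κ) (hκ : κ ≤ 1) {x y : Fin 2 → ℝ} :
    (0 ≤ (redL n κ x y).1 ∧ (redL n κ x y).1 ≤ n + 1) ∧
    (0 ≤ (redL n κ x y).2.1 ∧ (redL n κ x y).2.1 ≤ n + 1) ∧
    (0 ≤ (redL n κ x y).2.2 ∧ (redL n κ x y).2.2 ≤ n + 1) := by
  by_cases h : redE n κ x y
  · unfold redL
    rw [if_pos h]
    obtain ⟨h1, h2, h3⟩ := h
    have hn : (0 : ℝ) ≤ n := Nat.cast_nonneg n
    have a1 : (redLg (x 0) : ℝ) ≤ n := red_lg_le hn h2
    have a2 : (redLg (y 0) : ℝ) ≤ n := red_lg_le hn h3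
    have a3 : (redLg (om x y) : ℝ) ≤ n := by
      have : (redLg (om x y) : ℝ) ≤ κ * n := red_lg_le (mul_nonneg hκ0 hn) (le_of_lt h1)
      nlinarith
    have b1 : redLg (x 0) ≤ n := by exact_mod_cast a1
    have b2 : redLg (y 0) ≤ n := by exact_mod_cast a2
    have b3 : redLg (om x y) ≤ n := by exact_mod_cast a3
    simp only
    omega
  · unfold redL
    rw [if_neg h]
    simp only
    omega

theorem redL_E {n : ℕ} {κ : ℝ} {x y x' y' : Fin 2 → ℝ} (h : redE n κ x y)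
    (hL : redL n κ x' y' = redL n κ x y) :
    redE n κ x' y' ∧ redLg (x' 0) = redLg (x 0) ∧ redLg (y' 0) = redLg (y 0) ∧
      redLg (om x' y') = redLg (om x y) ∧ redS x' y' = redS x y := by
  have h1 : redE n κ x' y' := by
    by_contra hc
    unfold redL at hL
    rw [if_pos h, if_neg hc] at hL
    have := (Prod.mk.inj hL).1
    omega
  unfold redL at hL
  rw [if_pos h, if_pos h1] at hL
  have h2 := Prod.mk.inj hL
  have h3 := Prod.mk.inj h2.2
  have e1 : redLg (x' 0) = redLg (x 0) := by have := h2.1; omega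
  have e2 : redLg (y' 0) = redLg (y 0) := by have := h3.1; omega
  have e3 : redLg (om x' y') = redLg (om x y) := by have := h3.2; omega
  refine ⟨h1, e1, e2, e3, ?_⟩
  unfold redS
  rw [e1, e2, e3]

theorem redK_det {n : ℕ} {κ : ℝ} {x y x' y' : Fin 2 → ℝ} (hx : x' = x)
    (hL : redL n κ x' y' = redL n κ x y) : redK n κ x' y' = redK n κ x y := by
  by_cases h : redE n κ x y
  · obtain ⟨h1, _, _, _, h5⟩ := redL_E h hL
    rw [redK_pos h, redK_pos h1, h5, hx]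
  · have h1 : ¬ redE n κ x' y' := fun hc => h (redL_E hc hL.symm).1
    unfold redK
    rw [if_neg h, if_neg h1]

theorem redX_det {n : ℕ} {κ : ℝ} {x y x' y' : Fin 2 → ℝ} (h : redE n κ x y)
    (hL : redL n κ x' y' = redL n κ x y) (hK : redK n κ x' y' = redK n κ x y) :
    redX n κ x' y' = redX n κ x y ↔ x' = x := by
  obtain ⟨h1, h2, _, _, h5⟩ := redL_E h hL
  have hS : redS x y ≠ 0 := by unfold redS; positivity
  constructor
  · intro hh
    have e0 := congrFun hh 0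
    have e1 := congrFun hh 1
    rw [redX_zero h, redX_zero h1, h2] at e0
    rw [redX_one h, redX_one h1, h2, h5, hK] at e1
    have p : (2 : ℝ) ^ redLg (x 0) ≠ 0 := by positivity
    have f0 := mul_left_cancel₀ p e0
    have f1 := mul_left_cancel₀ p e1
    rw [f0] at f1
    have f2 := mul_left_cancel₀ hS (sub_left_injective f1)
    funext i; fin_cases i
    · exact f0
    · exact f2
  · intro hh
    unfold redX
    rw [if_pos h, if_pos h1, h2, h5, hK, hh]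

theorem redY_det {n : ℕ} {κ : ℝ} {x y x' y' : Fin 2 → ℝ} (h : redE n κ x y)
    (hL : redL n κ x' y' = redL n κ x y) (hK : redK n κ x' y' = redK n κ x y) (hy : y' = y) :
    redY n κ x' y' = redY n κ x y := by
  obtain ⟨h1, _, h3, _, h5⟩ := redL_E h hL
  unfold redY
  rw [if_pos h, if_pos h1, h3, h5, hK, hy]

/-! ### information -/

section info

variable {Ω α β γ δ φ : Type} [Fintype Ω]

theorem red_info (μ : Ω → ℝ) (hμ : ∀ ω, 0 ≤ μ ω) (X : Ω → α) (Y : Ω → β) (F : Ω → φ) (L : Ω → γ)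
    (K : Ω → δ) {u lam kk : ℝ} (hK1 : ∀ ω ω', X ω = X ω' → L ω = L ω' → K ω = K ω')
    (hK2 : CH μ K (fun ω => (Y ω, L ω, F ω)) ≤ kk) (hL : CH μ L F ≤ lam)
    (h3 : CH μ X F ≤ CH μ X (fun ω => (Y ω, F ω)) + u) :
    CH μ X (fun ω => (K ω, L ω, F ω)) ≤ CH μ X (fun ω => (Y ω, K ω, L ω, F ω)) + (u + lam) ∧
    CH μ (fun ω => (L ω, K ω)) F ≤ u + 2 * lam + kk := by
  -- I(X; Y | L, F)
  have a1 : CH μ X (fun ω => (L ω, F ω)) ≤ CH μ X (fun ω => (Y ω, L ω, F ω)) + (u + lam) := by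
    have b1 : CH μ X (fun ω => (L ω, F ω)) ≤ CH μ X F := by
      apply ch_cond μ hμ
      intro ω ω' _ _ h; exact (Prod.mk.inj h).2
    have b2 := ch_symm μ X L (fun ω => (Y ω, F ω))
    have b3 := ch_nonneg μ hμ L (fun ω => (X ω, Y ω, F ω))
    have b4 : CH μ L (fun ω => (Y ω, F ω)) ≤ CH μ L F := by
      apply ch_cond μ hμ
      intro ω ω' _ _ h; exact (Prod.mk.inj h).2
    have b5 : CH μ X (fun ω => (L ω, Y ω, F ω)) = CH μ X (fun ω => (Y ω, L ω, F ω)) := by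
      apply ch_congr_right
      intro ω ω' _ _
      simp only [Prod.mk.injEq]
      tauto
    linarith
  have c1 := ch_symm μ X Y (fun ω => (L ω, F ω))
  have c2 : CH μ Y (fun ω => (X ω, L ω, F ω)) = CH μ Y (fun ω => (X ω, K ω, L ω, F ω)) := by
    apply ch_congr_right
    intro ω ω' _ _
    simp only [Prod.mk.injEq]
    constructor
    · rintro ⟨h1, h2, h3⟩; exact ⟨h1, hK1 _ _ h1 h2, h2, h3⟩
    · rintro ⟨h1, _, h2, h3⟩; exact ⟨h1, h2, h3⟩
  have c3 : CH μ Y (fun ω => (K ω, L ω, F ω)) ≤ CH μ Y (fun ω => (L ω, F ω)) := by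
    apply ch_cond μ hμ
    intro ω ω' _ _ h; exact (Prod.mk.inj h).2
  constructor
  · have c4 := ch_symm μ X Y (fun ω => (K ω, L ω, F ω))
    linarith
  · have d1 := ch_chain μ L K F
    have d2 := ch_symm μ K Y (fun ω => (L ω, F ω))
    have d3 : CH μ Y (fun ω => (X ω, K ω, L ω, F ω)) ≤ CH μ Y (fun ω => (K ω, L ω, F ω)) := by
      apply ch_cond μ hμ
      intro ω ω' _ _ h; exact (Prod.mk.inj h).2
    linarith

theorem red_lose (μ : Ω → ℝ) (hμ : ∀ ω, 0 ≤ μ ω) (f : Ω → α) (F : Ω → φ) (L : Ω → γ) (K : Ω → δ)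
    {v : ℝ} (hv : CH μ (fun ω => (L ω, K ω)) F ≤ v) :
    CH μ f F - v ≤ CH μ f (fun ω => (K ω, L ω, F ω)) := by
  have h1 := ch_symm μ f (fun ω => (L ω, K ω)) F
  have h2 := ch_nonneg μ hμ (fun ω => (L ω, K ω)) (fun ω => (f ω, F ω))
  have h3 : CH μ f (fun ω => ((L ω, K ω), F ω)) = CH μ f (fun ω => (K ω, L ω, F ω)) := by
    apply ch_congr_right
    intro ω ω' _ _
    simp only [Prod.mk.injEq]
    tauto
  linarith

theorem red_label_ent (μ : Ω → ℝ) (hμ : ∀ ω, 0 ≤ μ ω) (hm : mass μ = 1) (F : Ω → φ)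
    (L : Ω → ℤ × ℤ × ℤ) (n : ℕ)
    (h : ∀ ω, (0 ≤ (L ω).1 ∧ (L ω).1 ≤ n + 1) ∧ (0 ≤ (L ω).2.1 ∧ (L ω).2.1 ≤ n + 1) ∧
      (0 ≤ (L ω).2.2 ∧ (L ω).2.2 ≤ n + 1)) :
    CH μ L F ≤ 3 * Real.logb 2 ((n : ℝ) + 2) := by
  have key : ∀ (A : Ω → ℤ) (γ' : Type) (G : Ω → γ'), (∀ ω, 0 ≤ A ω ∧ A ω ≤ n + 1) →
      CH μ A G ≤ Real.logb 2 ((n : ℝ) + 2) := by
    intro A γ' G hA
    have h1 := ch_int μ hμ A G ((n : ℝ) + 1) (by positivity) (by
      intro ω ω' _ _ _
      have a1 := hA ω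
      have a2 := hA ω'
      have b1 : (0 : ℝ) ≤ A ω := by exact_mod_cast a1.1
      have b2 : (A ω : ℝ) ≤ n + 1 := by exact_mod_cast a1.2
      have b3 : (0 : ℝ) ≤ A ω' := by exact_mod_cast a2.1
      have b4 : (A ω' : ℝ) ≤ n + 1 := by exact_mod_cast a2.2
      rw [abs_le]; constructor <;> linarith)
    rw [hm, mul_one] at h1
    have h2 : (n : ℝ) + 1 + 1 = n + 2 := by ring
    rwa [h2] at h1
  have h1 := ch_chain μ (fun ω => (L ω).1) (fun ω => ((L ω).2.1, (L ω).2.2)) F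
  have h2 := ch_chain μ (fun ω => (L ω).2.1) (fun ω => (L ω).2.2) (fun ω => ((L ω).1, F ω))
  have k1 := key (fun ω => (L ω).1) _ F (fun ω => (h ω).1)
  have k2 := key (fun ω => (L ω).2.1) _ (fun ω => ((L ω).1, F ω)) (fun ω => (h ω).2.1)
  have k3 := key (fun ω => (L ω).2.2) _ (fun ω => ((L ω).2.1, (L ω).1, F ω)) (fun ω => (h ω).2.2)
  have h3 : CH μ L F = CH μ (fun ω => ((L ω).1, ((L ω).2.1, (L ω).2.2))) F := rfl
  linarith

end info

end Pool.Agent.Helper92.W
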